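import Mathlib

/-!
# Rational factorization of tropical polynomials

Every tropical polynomial function in `n` variables is a tropical quotient of two products of units.

Proof idea.  Write `L a x = c a + a · x` and `M S x = max_{a ∈ S} L a x`.
If `c` is the restriction to `A` of an affine function then `M A` is a unit.  Otherwise there is an
affine dependence `∑ ν a = 0`, `∑ ν a • a = 0` with `∑ ν a * c a > 0`.  Put `J = {a ∈ A | ν a < 0}`.
Then for every `x` we have `∑ ν a * L a x > 0`, and so some `j ∈ J` satisfies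
`L j x ≤ max_{a ∈ A \ J} L a x`.  Hence `∑_{T ⊆ J} (-1)^|T| M (A \ T) x = 0` for every `x`, and this
writes `M A` as a signed sum of functions `M A'` with `A'` a proper nonempty subset of `A`.
-/

set_option autoImplicit false

namespace Pool.Agent.Results.MP_b8ee47_co.RationalFactorization

/-- The point of `ℝⁿ` given by an exponent vector in `ℕⁿ`. -/
def pt {n : ℕ} (a : Fin n → ℕ) : Fin n → ℝ := fun i => (a i : ℝ)

/-- The function `x ↦ max_{a ∈ A} (c a + a · x)` on `ℝⁿ`. -/
noncomputable def tropEval {n : ℕ} (A : Finset (Fin n → ℕ)) (hA : A.Nonempty)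
    (c : (Fin n → ℕ) → ℝ) : (Fin n → ℝ) → ℝ :=
  fun x => A.sup' hA (fun a => c a + ∑ i, (a i : ℝ) * x i)

/-- `f` is a tropical polynomial in `n` variables (as a function). -/
def IsTropicalPolynomial {n : ℕ} (f : (Fin n → ℝ) → ℝ) : Prop :=
  ∃ (A : Finset (Fin n → ℕ)) (hA : A.Nonempty) (c : (Fin n → ℕ) → ℝ), f = tropEval A hA c

/-- The Newton polytope `conv A`. -/
def newtonPolytope {n : ℕ} (A : Finset (Fin n → ℕ)) : Set (Fin n → ℝ) :=
  convexHull ℝ (pt '' (A : Set (Fin n → ℕ)))

/-- The lifted polytope `conv {(a, - c a) : a ∈ A}` in `ℝⁿ × ℝ`. -/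
def liftedPolytope {n : ℕ} (A : Finset (Fin n → ℕ)) (c : (Fin n → ℕ) → ℝ) :
    Set ((Fin n → ℝ) × ℝ) :=
  convexHull ℝ ((fun a : Fin n → ℕ => ((pt a, - c a) : (Fin n → ℝ) × ℝ)) ''
    (A : Set (Fin n → ℕ)))

/-- The lower face of the lifted polytope on which the functional `(u, h) ↦ h - x · u`
is minimal. -/
def lowerFace {n : ℕ} (A : Finset (Fin n → ℕ)) (c : (Fin n → ℕ) → ℝ) (x : Fin n → ℝ) :
    Set ((Fin n → ℝ) × ℝ) :=
  {p | p ∈ liftedPolytope A c ∧
    ∀ q ∈ liftedPolytope A c, p.2 - ∑ i, x i * p.1 i ≤ q.2 - ∑ i, x i * q.1 i}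

/-- The cells of the regular subdivision: the projections of the lower faces. -/
def subdivision {n : ℕ} (A : Finset (Fin n → ℕ)) (c : (Fin n → ℕ) → ℝ) :
    Set (Set (Fin n → ℝ)) :=
  {C | ∃ x : Fin n → ℝ, C = Prod.fst '' lowerFace A c x}

/-- The regular subdivision is trivial: its only maximal cell is the Newton polytope. -/
def IsTrivialSubdivision {n : ℕ} (A : Finset (Fin n → ℕ)) (c : (Fin n → ℕ) → ℝ) : Prop :=
  {C | C ∈ subdivision A c ∧ ∀ D ∈ subdivision A c, C ⊆ D → D = C} = {newtonPolytope A}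

/-- A unit: a tropical polynomial function with trivial regular subdivision. -/
def IsTropicalUnit {n : ℕ} (f : (Fin n → ℝ) → ℝ) : Prop :=
  ∃ (A : Finset (Fin n → ℕ)) (hA : A.Nonempty) (c : (Fin n → ℕ) → ℝ),
    f = tropEval A hA c ∧ IsTrivialSubdivision A c

/-- `f` is rationally factorizable: `f ⊙ g = h` where `g` and `h` are finite tropical products
(pointwise sums) of units. -/
def IsRationallyFactorizable {n : ℕ} (f : (Fin n → ℝ) → ℝ) : Prop :=
  ∃ G H : List ((Fin n → ℝ) → ℝ),
    (∀ u ∈ G, IsTropicalUnit u) ∧ (∀ u ∈ H, IsTropicalUnit u) ∧ f + G.sum = H.sum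

/-! ### Affine coefficients give units -/

lemma isTrivialSubdivision_of_affine {n : ℕ} (A : Finset (Fin n → ℕ))
    (c : (Fin n → ℕ) → ℝ) (s : ℝ) (t : Fin n → ℝ)
    (h : ∀ a ∈ A, c a = s + ∑ i, (a i : ℝ) * t i) : IsTrivialSubdivision A c := by
  have hfst : Prod.fst '' liftedPolytope A c = newtonPolytope A := by
    unfold liftedPolytope newtonPolytope
    have := (LinearMap.fst ℝ (Fin n → ℝ) ℝ).image_convexHull
      ((fun a : Fin n → ℕ => ((pt a, - c a) : (Fin n → ℝ) × ℝ)) '' (A : Set (Fin n → ℕ)))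
    rw [LinearMap.coe_fst] at this
    rw [this, Set.image_image]
  have hsub : ∀ C ∈ subdivision A c, C ⊆ newtonPolytope A := by
    rintro C ⟨x, rfl⟩
    rw [← hfst]
    exact Set.image_mono (fun p hp => hp.1)
  have hconst : ∀ p ∈ liftedPolytope A c, p.2 - ∑ i, (-t i) * p.1 i = -s := by
    have hconv : Convex ℝ {p : (Fin n → ℝ) × ℝ | p.2 - ∑ i, (-t i) * p.1 i = -s} := by
      intro p hp q hq a b _ _ hab
      simp only [Set.mem_ofPred_eq] at hp hq ⊢
      simp only [Prod.snd_add, Prod.smul_snd, Prod.fst_add, Prod.smul_fst, Pi.add_apply,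
        Pi.smul_apply, smul_eq_mul]
      have e : ∑ i, (-t i) * (a * p.1 i + b * q.1 i)
          = a * ∑ i, (-t i) * p.1 i + b * ∑ i, (-t i) * q.1 i := by
        rw [Finset.mul_sum, Finset.mul_sum, ← Finset.sum_add_distrib]
        exact Finset.sum_congr rfl (fun i _ => by ring)
      rw [e]
      have : a * p.2 + b * q.2 - (a * ∑ i, (-t i) * p.1 i + b * ∑ i, (-t i) * q.1 i)
          = a * (p.2 - ∑ i, (-t i) * p.1 i) + b * (q.2 - ∑ i, (-t i) * q.1 i) := by ring
      rw [this, hp, hq, ← add_mul, hab, one_mul]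
    have := convexHull_min (s := (fun a : Fin n → ℕ =>
      ((pt a, - c a) : (Fin n → ℝ) × ℝ)) '' (A : Set (Fin n → ℕ))) ?_ hconv
    · exact fun p hp => this hp
    · rintro _ ⟨a, ha, rfl⟩
      simp only [Set.mem_ofPred_eq, pt]
      rw [h a ha]
      have : ∑ i, -t i * (a i : ℝ) = - ∑ i, (a i : ℝ) * t i := by
        rw [← Finset.sum_neg_distrib]
        exact Finset.sum_congr rfl (fun i _ => by ring)
      rw [this]
      ring
  have hmem : newtonPolytope A ∈ subdivision A c := by
    refine ⟨fun i => - t i, ?_⟩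
    rw [← hfst]
    congr 1
    ext p
    constructor
    · intro hp
      exact ⟨hp, fun q hq => by rw [hconst p hp, hconst q hq]⟩
    · intro hp
      exact hp.1
  unfold IsTrivialSubdivision
  ext C
  simp only [Set.mem_ofPred_eq, Set.mem_singleton_iff]
  constructor
  · rintro ⟨hC, hmax⟩
    exact (hmax _ hmem (hsub C hC)).symm
  · rintro rfl
    exact ⟨hmem, fun D hD hle => Set.Subset.antisymm (hsub D hD) hle⟩

/-! ### The alternating identity -/

/-- Total version of the maximum (junk value `0` on the empty set), for internal use. -/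
noncomputable def M {n : ℕ} (c : (Fin n → ℕ) → ℝ) (S : Finset (Fin n → ℕ)) :
    (Fin n → ℝ) → ℝ := by
  classical
  exact if h : S.Nonempty then tropEval S h c else 0

lemma M_of_nonempty {n : ℕ} (c : (Fin n → ℕ) → ℝ) (S : Finset (Fin n → ℕ))
    (h : S.Nonempty) : M c S = tropEval S h c := by
  unfold M
  simp [h]

lemma M_erase {n : ℕ} (c : (Fin n → ℕ) → ℝ) (S : Finset (Fin n → ℕ)) (x : Fin n → ℝ)
    (j i : Fin n → ℕ) (hi : i ∈ S.erase j)
    (hle : c j + ∑ k, (j k : ℝ) * x k ≤ c i + ∑ k, (i k : ℝ) * x k) :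
    M c (S.erase j) x = M c S x := by
  classical
  have hne' : (S.erase j).Nonempty := ⟨i, hi⟩
  have hne : S.Nonempty := ⟨i, Finset.mem_of_mem_erase hi⟩
  rw [M_of_nonempty c _ hne', M_of_nonempty c _ hne]
  unfold tropEval
  apply le_antisymm
  · exact Finset.sup'_mono _ (Finset.erase_subset j S) hne'
  · apply Finset.sup'_le
    intro a ha
    by_cases haj : a = j
    · subst haj
      exact hle.trans (Finset.le_sup' (fun a => c a + ∑ k, (a k : ℝ) * x k) hi)
    · exact Finset.le_sup' (fun a => c a + ∑ k, (a k : ℝ) * x k)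
        (Finset.mem_erase.mpr ⟨haj, ha⟩)

/-- If some `j ∈ J` is dominated at `x` by some `i ∈ A \ J` then the alternating sum vanishes. -/
lemma alternating_zero {n : ℕ} (c : (Fin n → ℕ) → ℝ) (A J : Finset (Fin n → ℕ))
    (x : Fin n → ℝ) (j i : Fin n → ℕ) (hj : j ∈ J) (hi : i ∈ A \ J) (hJA : J ⊆ A)
    (hle : c j + ∑ k, (j k : ℝ) * x k ≤ c i + ∑ k, (i k : ℝ) * x k) :
    ∑ T ∈ J.powerset, ((-1 : ℤ) ^ T.card) • (M c (A \ T) x) = 0 := by
  classical
  obtain ⟨J', hJ', rfl⟩ : ∃ J', j ∉ J' ∧ J = insert j J' :=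
    ⟨J.erase j, Finset.notMem_erase j J, (Finset.insert_erase hj).symm⟩
  rw [Finset.sum_powerset_insert hJ', ← Finset.sum_add_distrib]
  apply Finset.sum_eq_zero
  intro T hT
  have hTJ : T ⊆ J' := Finset.mem_powerset.mp hT
  have hjT : j ∉ T := fun h => hJ' (hTJ h)
  rw [Finset.card_insert_of_notMem hjT]
  have e : A \ insert j T = (A \ T).erase j := by
    ext a
    simp only [Finset.mem_sdiff, Finset.mem_insert, Finset.mem_erase, not_or]
    tauto
  have hi' : i ∈ (A \ T).erase j := by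
    rw [Finset.mem_sdiff] at hi
    rw [Finset.mem_erase, Finset.mem_sdiff]
    refine ⟨?_, hi.1, ?_⟩
    · rintro rfl
      exact hi.2 (Finset.mem_insert_self _ _)
    · intro h
      exact hi.2 (Finset.mem_insert_of_mem (hTJ h))
  rw [e, M_erase c (A \ T) x j i hi' hle, pow_succ]
  simp

/-! ### Linear algebra: either the coefficients are affine or there is a bad dependence -/

lemma affine_or_dependence {n : ℕ} (A : Finset (Fin n → ℕ)) (c : (Fin n → ℕ) → ℝ) :
    (∃ (s : ℝ) (t : Fin n → ℝ), ∀ a ∈ A, c a = s + ∑ i, (a i : ℝ) * t i) ∨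
    (∃ ν : (Fin n → ℕ) → ℝ, (∑ a ∈ A, ν a = 0) ∧
      (∀ i, ∑ a ∈ A, ν a * (a i : ℝ) = 0) ∧ 0 < ∑ a ∈ A, ν a * c a) := by
  classical
  let Φ : (A → ℝ) →ₗ[ℝ] (ℝ × (Fin n → ℝ)) :=
    { toFun := fun ν => (∑ a, ν a, fun i => ∑ a, ν a * (a.1 i : ℝ))
      map_add' := by
        intro ν μ
        ext
        · simp [Finset.sum_add_distrib]
        · simp [Finset.sum_add_distrib, add_mul]
      map_smul' := by
        intro r ν
        ext
        · simp [Finset.mul_sum]
        · simp [Finset.mul_sum, mul_assoc] }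
  let γ : (A → ℝ) →ₗ[ℝ] ℝ :=
    { toFun := fun ν => ∑ a, ν a * c a.1
      map_add' := by
        intro ν μ
        simp [Finset.sum_add_distrib, add_mul]
      map_smul' := by
        intro r ν
        simp [Finset.mul_sum, mul_assoc] }
  by_cases hker : ∀ ν : A → ℝ, Φ ν = 0 → γ ν = 0
  · left
    have hmem : (γ : Module.Dual ℝ (A → ℝ)) ∈ (LinearMap.ker Φ).dualAnnihilator := by
      rw [Submodule.mem_dualAnnihilator]
      intro ν hν
      exact hker ν (LinearMap.mem_ker.mp hν)
    rw [← LinearMap.range_dualMap_eq_dualAnnihilator_ker] at hmem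
    obtain ⟨ψ, hψ⟩ := hmem
    refine ⟨ψ (1, 0), fun i => ψ (0, Pi.single i 1), ?_⟩
    intro a ha
    have h1 : γ (Pi.single (⟨a, ha⟩ : A) 1) = c a := by
      change ∑ b : A, (Pi.single (⟨a, ha⟩ : A) (1 : ℝ) : A → ℝ) b * c b.1 = c a
      rw [Finset.sum_eq_single (⟨a, ha⟩ : A)]
      · simp
      · intro b _ hb
        simp [hb]
      · simp
    have h2 : Φ (Pi.single (⟨a, ha⟩ : A) 1) = ((1 : ℝ), pt a) := by
      change ((∑ b : A, (Pi.single (⟨a, ha⟩ : A) (1 : ℝ) : A → ℝ) b,
        fun i => ∑ b : A, (Pi.single (⟨a, ha⟩ : A) (1 : ℝ) : A → ℝ) b * (b.1 i : ℝ)) :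
          ℝ × (Fin n → ℝ)) = ((1 : ℝ), pt a)
      refine Prod.ext ?_ ?_
      · simp
      · funext i
        change ∑ b : A, (Pi.single (⟨a, ha⟩ : A) (1 : ℝ) : A → ℝ) b * (b.1 i : ℝ) = (a i : ℝ)
        rw [Finset.sum_eq_single (⟨a, ha⟩ : A)]
        · simp
        · intro b _ hb
          simp [hb]
        · simp
    have h3 : ψ (Φ (Pi.single (⟨a, ha⟩ : A) 1)) = γ (Pi.single (⟨a, ha⟩ : A) 1) := by
      rw [← hψ]
      rfl
    rw [h1, h2] at h3
    rw [← h3]
    have h4 : ((1 : ℝ), pt a) = ((1 : ℝ), (0 : Fin n → ℝ))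
        + ∑ i, (a i : ℝ) • ((0 : ℝ), (Pi.single i (1 : ℝ) : Fin n → ℝ)) := by
      refine Prod.ext ?_ ?_
      · simp [Prod.fst_sum]
      · funext k
        simp [Prod.snd_sum, pt, Finset.sum_apply, Pi.single_apply]
    rw [h4, map_add, map_sum]
    simp only [map_smul, smul_eq_mul]
  · right
    push Not at hker
    obtain ⟨ν, hν, hγ⟩ := hker
    -- extend by zero, and choose the sign
    have key : ∀ μ : A → ℝ, Φ μ = 0 → 0 < γ μ → ∃ ν : (Fin n → ℕ) → ℝ, (∑ a ∈ A, ν a = 0) ∧
      (∀ i, ∑ a ∈ A, ν a * (a i : ℝ) = 0) ∧ 0 < ∑ a ∈ A, ν a * c a := by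
      intro μ hμ hpos
      refine ⟨fun a => if h : a ∈ A then μ ⟨a, h⟩ else 0, ?_, ?_, ?_⟩
      · have : (Φ μ).1 = 0 := by rw [hμ]; rfl
        change ∑ a : A, μ a = 0 at this
        rw [← Finset.sum_coe_sort]
        simpa using this
      · intro i
        have : (Φ μ).2 i = 0 := by rw [hμ]; rfl
        change ∑ a : A, μ a * (a.1 i : ℝ) = 0 at this
        rw [← Finset.sum_coe_sort]
        simpa using this
      · change 0 < ∑ a : A, μ a * c a.1 at hpos
        rw [← Finset.sum_coe_sort]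
        simpa using hpos
    rcases lt_or_gt_of_ne hγ with h | h
    · exact key (-ν) (by rw [map_neg, hν, neg_zero]) (by rw [map_neg]; linarith)
    · exact key ν hν h

/-- A dependence of positive value forces a domination at every point. -/
lemma exists_dominated {n : ℕ} (A : Finset (Fin n → ℕ))
    (c : (Fin n → ℕ) → ℝ) (ν : (Fin n → ℕ) → ℝ) (h0 : ∑ a ∈ A, ν a = 0)
    (h1 : ∀ i, ∑ a ∈ A, ν a * (a i : ℝ) = 0) (h2 : 0 < ∑ a ∈ A, ν a * c a) (x : Fin n → ℝ) :
    ∃ j ∈ A.filter (fun a => ν a < 0), ∃ i ∈ A \ A.filter (fun a => ν a < 0),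
      c j + ∑ k, (j k : ℝ) * x k ≤ c i + ∑ k, (i k : ℝ) * x k := by
  classical
  set J := A.filter (fun a => ν a < 0) with hJ
  have hJne : J.Nonempty := by
    by_contra hne
    rw [Finset.not_nonempty_iff_eq_empty] at hne
    have hnn : ∀ a ∈ A, 0 ≤ ν a := by
      intro a ha
      by_contra hlt
      push Not at hlt
      have : a ∈ J := Finset.mem_filter.mpr ⟨ha, hlt⟩
      rw [hne] at this
      simp at this
    have hz : ∀ a ∈ A, ν a = 0 := (Finset.sum_eq_zero_iff_of_nonneg hnn).mp h0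
    have : ∑ a ∈ A, ν a * c a = 0 := Finset.sum_eq_zero (fun a ha => by rw [hz a ha, zero_mul])
    linarith
  by_contra hcon
  push Not at hcon
  obtain ⟨j0, hj0, hmin⟩ := Finset.exists_min_image J
    (fun a => c a + ∑ k, (a k : ℝ) * x k) hJne
  set m := c j0 + ∑ k, (j0 k : ℝ) * x k with hm
  have hS : ∑ a ∈ A, ν a * (c a + ∑ k, (a k : ℝ) * x k - m) = ∑ a ∈ A, ν a * c a := by
    have e : ∀ a ∈ A, ν a * (c a + ∑ k, (a k : ℝ) * x k - m)
        = ν a * c a + ∑ k, x k * (ν a * (a k : ℝ)) - ν a * m := by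
      intro a _
      rw [mul_sub, mul_add, Finset.mul_sum]
      congr 2
      exact Finset.sum_congr rfl (fun k _ => by ring)
    rw [Finset.sum_congr rfl e, Finset.sum_sub_distrib, Finset.sum_add_distrib,
      ← Finset.sum_mul, h0, zero_mul, sub_zero, Finset.sum_comm]
    have : ∑ k, ∑ a ∈ A, x k * (ν a * (a k : ℝ)) = 0 := by
      apply Finset.sum_eq_zero
      intro k _
      rw [← Finset.mul_sum, h1 k, mul_zero]
    rw [this, add_zero]
  have hle : ∑ a ∈ A, ν a * (c a + ∑ k, (a k : ℝ) * x k - m) ≤ 0 := by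
    apply Finset.sum_nonpos
    intro a ha
    by_cases haJ : a ∈ J
    · have hneg : ν a < 0 := (Finset.mem_filter.mp haJ).2
      have := hmin a haJ
      exact mul_nonpos_of_nonpos_of_nonneg hneg.le (by linarith)
    · have hnn : 0 ≤ ν a := by
        by_contra hlt
        push Not at hlt
        exact haJ (Finset.mem_filter.mpr ⟨ha, hlt⟩)
      have := hcon j0 hj0 a (Finset.mem_sdiff.mpr ⟨ha, haJ⟩)
      exact mul_nonpos_of_nonneg_of_nonpos hnn (by linarith)
  linarith

/-- Every tropical polynomial function lies in the group generated by the units. -/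
lemma mem_closure {n : ℕ} (c : (Fin n → ℕ) → ℝ) (A : Finset (Fin n → ℕ)) (hA : A.Nonempty) :
    tropEval A hA c ∈ AddSubgroup.closure {u : (Fin n → ℝ) → ℝ | IsTropicalUnit u} := by
  classical
  induction A using Finset.strongInduction with
  | H A ih =>
    rcases affine_or_dependence A c with ⟨s, t, h⟩ | ⟨ν, h0, h1, h2⟩
    · exact AddSubgroup.subset_closure
        ⟨A, hA, c, rfl, isTrivialSubdivision_of_affine A c s t h⟩
    · have hdom := exists_dominated A c ν h0 h1 h2
      set J := A.filter (fun a => ν a < 0) with hJ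
      have hJA : J ⊆ A := Finset.filter_subset _ _
      have hsum : ∑ T ∈ J.powerset, ((-1 : ℤ) ^ T.card) • (M c (A \ T)) = 0 := by
        funext x
        obtain ⟨j, hj, i, hi, hle⟩ := hdom x
        have := alternating_zero c A J x j i hj hi hJA hle
        simpa [Finset.sum_apply] using this
      have hne : (A \ J).Nonempty := by
        obtain ⟨j, hj, i, hi, hle⟩ := hdom 0
        exact ⟨i, hi⟩
      rw [← Finset.sum_erase_add _ _ (Finset.empty_mem_powerset J)] at hsum
      have hM : tropEval A hA c = - ∑ T ∈ J.powerset.erase ∅,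
          ((-1 : ℤ) ^ T.card) • (M c (A \ T)) := by
        rw [eq_neg_iff_add_eq_zero, add_comm]
        simpa [M_of_nonempty c A hA] using hsum
      rw [hM]
      apply AddSubgroup.neg_mem
      apply AddSubgroup.sum_mem
      intro T hT
      rw [Finset.mem_erase, Finset.mem_powerset] at hT
      have hTne : T.Nonempty := Finset.nonempty_iff_ne_empty.mpr hT.1
      have hne' : (A \ T).Nonempty := hne.mono (Finset.sdiff_subset_sdiff le_rfl hT.2)
      have hss : A \ T ⊂ A := by
        refine Finset.sdiff_ssubset (hT.2.trans hJA) hTne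
      rw [M_of_nonempty c _ hne']
      exact AddSubgroup.zsmul_mem _ (ih (A \ T) hss hne') _

/-- Elements of the group generated by the units are rationally factorizable. -/
lemma factorizable_of_mem_closure {n : ℕ} (f : (Fin n → ℝ) → ℝ)
    (hmem : f ∈ AddSubgroup.closure {u : (Fin n → ℝ) → ℝ | IsTropicalUnit u}) :
    IsRationallyFactorizable f := by
  induction hmem using AddSubgroup.closure_induction with
  | mem u hu =>
    refine ⟨[], [u], by simp, ?_, by simp⟩
    intro v hv
    rw [List.mem_singleton] at hv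
    rw [hv]
    exact hu
  | zero => exact ⟨[], [], by simp, by simp, by simp⟩
  | add u v _ _ hu hv =>
    obtain ⟨G, H, hG, hH, e⟩ := hu
    obtain ⟨G', H', hG', hH', e'⟩ := hv
    refine ⟨G ++ G', H ++ H', ?_, ?_, ?_⟩
    · intro w hw
      rcases List.mem_append.mp hw with h | h
      · exact hG w h
      · exact hG' w h
    · intro w hw
      rcases List.mem_append.mp hw with h | h
      · exact hH w h
      · exact hH' w h
    · rw [List.sum_append, List.sum_append, ← e, ← e']
      abel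
  | neg u _ hu =>
    obtain ⟨G, H, hG, hH, e⟩ := hu
    refine ⟨H, G, hH, hG, ?_⟩
    rw [← e]
    abel

/-- **Rational factorization.** For every `n`, every tropical polynomial in `n` variables is
a tropical quotient of two finite tropical products of units. -/
theorem result (n : ℕ) (f : (Fin n → ℝ) → ℝ) (hf : IsTropicalPolynomial f) :
    IsRationallyFactorizable f := by
  obtain ⟨A, hA, c, rfl⟩ := hf
  exact factorizable_of_mem_closure _ (mem_closure c A hA)

end Pool.Agent.Results.MP_b8ee47_co.RationalFactorization
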